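import Mathlib

namespace Pool.Agent.Results.MP_391eb1_al.Const

def LCM (G : Type) [Group G] : Set G :=
  {x | ∀ n : ℕ, 0 < n → ∀ y : G, orderOf (x ^ n * y) ∣ Nat.lcm (orderOf (x ^ n)) (orderOf y)}

noncomputable def ratio (G : Type) [Group G] : ℝ := ((LCM G).ncard : ℝ) / (Nat.card G : ℝ)

variable {S : Type} [Group S] {p : ℕ}

def P (p : ℕ) (M : Subgroup S) : Prop :=
  ∀ a ∈ M, ∀ b ∈ M, ∀ k : ℕ, a ^ p ^ k = 1 → b ^ p ^ k = 1 → (a * b) ^ p ^ k = 1

theorem coat [Finite S] [Fact p.Prime] (hS : IsPGroup p S) {M : Subgroup S} (hM : IsCoatom M) :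
    M.Normal ∧ ∀ a : S, a ^ p ∈ M := by
  have := hS.isNilpotent
  have hn : M.Normal :=
    Subgroup.NormalizerCondition.normal_of_coatom M Group.normalizerCondition_of_isNilpotent hM
  refine ⟨hn, fun a => ?_⟩
  by_contra h
  have h1 : M ⊔ Subgroup.zpowers (a ^ p) = ⊤ := hM.2 _ (left_lt_sup.2 fun hh =>
    h (hh (Subgroup.mem_zpowers _)))
  have h2 : a ∈ M ⊔ Subgroup.zpowers (a ^ p) := h1 ▸ Subgroup.mem_top a
  obtain ⟨m, hm, _, ⟨i, rfl⟩, e⟩ := Subgroup.mem_sup_of_normal_left.1 h2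
  have h3 : (a : S ⧸ M) = (a : S ⧸ M) ^ ((p : ℤ) * i) := by
    have := congrArg (QuotientGroup.mk' M) e
    rw [map_mul, map_zpow, map_pow, QuotientGroup.mk'_apply, (QuotientGroup.eq_one_iff m).2 hm,
      one_mul, QuotientGroup.mk'_apply] at this
    rw [zpow_mul, zpow_natCast, this]
  have h4 : ∀ n : ℕ, (a : S ⧸ M) = (a : S ⧸ M) ^ (((p : ℤ) * i) ^ n) := by
    intro n
    induction n with
    | zero => simp
    | succ n ih => rw [pow_succ', zpow_mul, ← h3, ← ih]
  obtain ⟨n, hn'⟩ := hS a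
  have h5 : (a : S ⧸ M) = 1 := by
    rw [h4 n, mul_pow, zpow_mul, ← Nat.cast_pow, zpow_natCast, ← QuotientGroup.mk_pow, hn']
    simp
  exact h (M.pow_mem ((QuotientGroup.eq_one_iff a).1 h5) p)

def Om {M : Subgroup S} (h : P p M) (k : ℕ) : Subgroup S where
  carrier := {g | g ∈ M ∧ g ^ p ^ k = 1}
  one_mem' := ⟨M.one_mem, one_pow _⟩
  mul_mem' ha hb := ⟨M.mul_mem ha.1 hb.1, h _ ha.1 _ hb.1 k ha.2 hb.2⟩
  inv_mem' ha := ⟨M.inv_mem ha.1, by rw [inv_pow, ha.2, inv_one]⟩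

theorem main [Finite S] [hp : Fact p.Prime] (hS : IsPGroup p S)
    (hmin : ∀ M : Subgroup S, M ≠ ⊤ → P p M) (h : ¬ P p (⊤ : Subgroup S)) :
    ratio S ≤ 1 - 1 / (p : ℝ) ^ 2 := by
  simp only [P, not_forall] at h
  obtain ⟨x, -, y, -, k, hx, hy, hxy⟩ := h
  have htop : Subgroup.closure {x, y} = ⊤ := by
    by_contra h
    exact hxy (hmin _ h x (Subgroup.subset_closure (by simp)) y
      (Subgroup.subset_closure (by simp)) k hx hy)
  have hco : ∀ g : S, ∃ M : Subgroup S, IsCoatom M ∧ g ∈ M := fun g => by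
    rcases eq_top_or_exists_le_coatom (Subgroup.zpowers g) with h | ⟨M, hM, h⟩
    · obtain ⟨i, rfl⟩ : x ∈ Subgroup.zpowers g := h ▸ Subgroup.mem_top x
      obtain ⟨j, rfl⟩ : y ∈ Subgroup.zpowers g := h ▸ Subgroup.mem_top y
      exact absurd (by rw [(Commute.zpow_zpow_self g i j).mul_pow, hx, hy, one_mul]) hxy
    · exact ⟨M, hM, h (Subgroup.mem_zpowers g)⟩
  let K := Subgroup.normalClosure {x * (y * x⁻¹ * y⁻¹), x ^ p, y ^ p}
  obtain ⟨M, hM, hxM⟩ := hco x
  obtain ⟨M', hM', hxM'⟩ := hco (x * y)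
  obtain ⟨hn, hpw⟩ := coat hS hM
  obtain ⟨hn', hpw'⟩ := coat hS hM'
  have hxO : x ∈ Om (hmin M hM.1) k := ⟨hxM, hx⟩
  have hOn : (Om (hmin M hM.1) k).Normal := ⟨fun a ha g =>
    ⟨hn.conj_mem a ha.1 g, by rw [conj_pow, ha.2]; simp⟩⟩
  have hK : K ≤ Om (hmin M hM.1) k := Subgroup.normalClosure_le_normal (by
    rintro _ (rfl | rfl | rfl)
    · exact Subgroup.mul_mem _ hxO (hOn.conj_mem _ (Subgroup.inv_mem _ hxO) y)
    · exact Subgroup.pow_mem _ hxO p
    · exact ⟨hpw y, by rw [← pow_mul, mul_comm, pow_mul, hy, one_pow]⟩)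
  have hK' : K ≤ M' := Subgroup.normalClosure_le_normal (by
    rintro _ (rfl | rfl | rfl)
    · have := M'.mul_mem hxM' (hn'.conj_mem _ (M'.inv_mem hxM') y)
      have e : x * y * (y * (x * y)⁻¹ * y⁻¹) = x * (y * x⁻¹ * y⁻¹) := by group
      exact e ▸ this
    · exact hpw' x
    · exact hpw' y)
  have hbad : ∀ m ∈ K, x * m ∉ LCM S := by
    intro m hm hL
    have h1 := hL 1 one_pos y
    rw [pow_one] at h1
    have h2 : (x * m * y) ^ p ^ k = 1 := orderOf_dvd_iff_pow_eq_one.1 (h1.trans (Nat.lcm_dvd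
      (orderOf_dvd_of_pow_eq_one (Subgroup.mul_mem _ hxO (hK hm)).2) (orderOf_dvd_of_pow_eq_one hy)))
    have h3 : y⁻¹ * m⁻¹ * y⁻¹⁻¹ ∈ K :=
      (inferInstance : K.Normal).conj_mem _ (K.inv_mem hm) _
    have e : x * m * y * (y⁻¹ * m⁻¹ * y⁻¹⁻¹) = x * y := by group
    have h4 : x * m * y ∈ M' := by
      have := M'.mul_mem hxM' (M'.inv_mem (hK' h3))
      rwa [← e, mul_inv_cancel_right] at this
    exact hxy (e ▸ hmin M' hM'.1 _ h4 _ (hK' h3) k h2 (hK h3).2)
  have hidx : K.index ≤ p ^ 2 := by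
    have hc : Commute (x : S ⧸ K) y := by
      have : ((x * (y * x⁻¹ * y⁻¹) : S) : S ⧸ K) = 1 :=
        (QuotientGroup.eq_one_iff _).2 (Subgroup.subset_normalClosure (by simp))
      rw [← commutatorElement_eq_one_iff_commute, commutatorElement_def, ← this]
      simp [mul_assoc]
    have ho : ∀ z : S, z ^ p ∈ K → Nat.card (Subgroup.zpowers (z : S ⧸ K)) ≤ p := fun z hz => by
      rw [Nat.card_zpowers]
      refine orderOf_le_of_pow_eq_one hp.out.pos ?_
      rw [← QuotientGroup.mk_pow]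
      exact (QuotientGroup.eq_one_iff _).2 hz
    have hs : Function.Surjective fun t : Subgroup.zpowers (x : S ⧸ K) ×
        Subgroup.zpowers (y : S ⧸ K) => t.1.1 * t.2.1 := by
      intro q
      obtain ⟨g, rfl⟩ := QuotientGroup.mk_surjective q
      have : ∃ i j : ℤ, (x : S ⧸ K) ^ i * (y : S ⧸ K) ^ j = g := by
        refine Subgroup.closure_induction (p := fun g _ => ∃ i j : ℤ,
          (x : S ⧸ K) ^ i * (y : S ⧸ K) ^ j = (g : S)) ?_ ?_ ?_ ?_ (htop ▸ Subgroup.mem_top g)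
        · rintro _ (rfl | rfl)
          · exact ⟨1, 0, by simp⟩
          · exact ⟨0, 1, by simp⟩
        · exact ⟨0, 0, by simp⟩
        · rintro a b _ _ ⟨i, j, h1⟩ ⟨i', j', h2⟩
          refine ⟨i + i', j + j', ?_⟩
          rw [QuotientGroup.mk_mul, ← h1, ← h2, zpow_add, zpow_add,
            (hc.zpow_zpow i' j).symm.mul_mul_mul_comm]
        · rintro a _ ⟨i, j, h1⟩
          refine ⟨-i, -j, ?_⟩
          rw [QuotientGroup.mk_inv, ← h1, mul_inv_rev, ← zpow_neg, ← zpow_neg]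
          exact (hc.zpow_zpow _ _).eq
      obtain ⟨i, j, h⟩ := this
      exact ⟨(⟨_, i, rfl⟩, ⟨_, j, rfl⟩), h⟩
    have := Nat.card_le_card_of_surjective _ hs
    rw [Nat.card_prod] at this
    exact this.trans (by
      rw [sq]
      exact Nat.mul_le_mul (ho x (Subgroup.subset_normalClosure (by simp)))
        (ho y (Subgroup.subset_normalClosure (by simp))))
  have hcnt : (LCM S).ncard + Nat.card K ≤ Nat.card S := by
    have h1 : ((fun m => x * m) '' (K : Set S)).ncard = Nat.card K := by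
      rw [Set.ncard_image_of_injective _ (mul_right_injective x)]
      rfl
    rw [← h1, ← Set.ncard_union_eq (Set.disjoint_right.2 (by
      rintro _ ⟨m, hm, rfl⟩; exact hbad m hm))]
    exact Set.ncard_le_card _
  have h1 : Nat.card S ≤ Nat.card K * p ^ 2 := by
    rw [← K.card_mul_index]; exact Nat.mul_le_mul_left _ hidx
  have h2 : (0 : ℝ) < Nat.card S := by exact_mod_cast Nat.card_pos
  have h3 : (0 : ℝ) < (p : ℝ) ^ 2 := by have := hp.out.pos; positivity
  have h4 : ((LCM S).ncard : ℝ) + Nat.card K ≤ Nat.card S := by exact_mod_cast hcnt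
  have h5 : (Nat.card S : ℝ) / (p : ℝ) ^ 2 ≤ Nat.card K := by
    rw [div_le_iff₀ h3]; exact_mod_cast h1
  rw [ratio, div_le_iff₀ h2, sub_mul, one_mul, one_div, inv_mul_eq_div]
  linarith

theorem P_map {T : Type} [Group T] (f : T →* S) (hf : Function.Injective f) (M : Subgroup T) :
    P p (M.map f) ↔ P p M := by
  constructor
  · intro h a ha b hb k h1 h2
    apply hf
    rw [map_pow, map_mul, map_one]
    exact h _ ⟨a, ha, rfl⟩ _ ⟨b, hb, rfl⟩ k (by rw [← map_pow, h1, map_one])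
      (by rw [← map_pow, h2, map_one])
  · rintro h _ ⟨a, ha, rfl⟩ _ ⟨b, hb, rfl⟩ k h1 h2
    rw [← map_mul, ← map_pow, h a ha b hb k (hf (by rw [map_pow, h1, map_one]))
      (hf (by rw [map_pow, h2, map_one])), map_one]

theorem result (p : ℕ) (hp : p.Prime) (G : Type) [Group G] [Finite G] (hG : IsPGroup p G)
    (h : ∀ (H : Subgroup G) (K : Subgroup H) [K.Normal], 1 - 1 / (p : ℝ) ^ 2 < ratio (H ⧸ K)) :
    LCM G = Set.univ := by
  have := Fact.mk hp
  have hP : ∀ H : Subgroup G, P p H := by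
    intro H
    induction H using WellFoundedLT.induction with
    | ind H ih =>
      by_contra hH
      let f : (H ⧸ (⊥ : Subgroup H)) →* G := H.subtype.comp QuotientGroup.quotientBot.toMonoidHom
      have hf : Function.Injective f := H.subtype_injective.comp QuotientGroup.quotientBot.injective
      have ht : Subgroup.map f ⊤ = H := by
        ext g
        constructor
        · rintro ⟨q, -, rfl⟩
          exact (QuotientGroup.quotientBot q).2
        · intro hg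
          exact ⟨QuotientGroup.mk ⟨g, hg⟩, trivial, rfl⟩
      refine (h H ⊥).not_ge (main (hG.of_injective f hf) (fun M hM => ?_) ?_)
      · rw [← P_map f hf]
        exact ih _ (((Subgroup.map_lt_map_iff_of_injective hf).2 (Ne.lt_top hM)).trans_eq ht)
      · rwa [← P_map f hf, ht]
  refine Set.eq_univ_of_forall fun x n _ y => ?_
  obtain ⟨i, hi⟩ := (IsPGroup.iff_orderOf.1 hG) (x ^ n)
  obtain ⟨j, hj⟩ := (IsPGroup.iff_orderOf.1 hG) y
  have h1 := hP ⊤ (x ^ n) trivial y trivial (max i j)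
    (orderOf_dvd_iff_pow_eq_one.1 (hi ▸ pow_dvd_pow _ (le_max_left _ _)))
    (orderOf_dvd_iff_pow_eq_one.1 (hj ▸ pow_dvd_pow _ (le_max_right _ _)))
  refine (orderOf_dvd_of_pow_eq_one h1).trans ?_
  rw [hi, hj]
  rcases le_total i j with h2 | h2
  · rw [max_eq_right h2]; exact Nat.dvd_lcm_right _ _
  · rw [max_eq_left h2]; exact Nat.dvd_lcm_left _ _

end Pool.Agent.Results.MP_391eb1_al.Const
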